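import Pool.Agent.BEC.Stmts

/-!
# BEC, row CSE: sections of a `C²` function
-/

set_option autoImplicit false

namespace Pool.Agent.BEC.H75

open Set Filter Topology MeasureTheory InnerProductSpace Laplacian
open scoped InnerProductSpace ENNReal
open Pool.Agent.BE01F Pool.Agent.BEC

theorem cse_dt {d : ℕ} {F : Type} [NormedAddCommGroup F] [NormedSpace ℝ F] (W : ℝ × E d → F)
    (t : ℝ) (x : E d) (h : DifferentiableAt ℝ W (t, x)) :
    HasDerivAt (fun s => W (s, x)) (fderiv ℝ W (t, x) (1, 0)) t := by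
  have h1 : HasDerivAt (fun s : ℝ => ((s, x) : ℝ × E d)) ((1 : ℝ), (0 : E d)) t :=
    (hasDerivAt_id t).prodMk (hasDerivAt_const t x)
  exact h.hasFDerivAt.comp_hasDerivAt t h1

theorem cse_dx {d : ℕ} {F : Type} [NormedAddCommGroup F] [NormedSpace ℝ F] (W : ℝ × E d → F)
    (t : ℝ) (x : E d) (h : DifferentiableAt ℝ W (t, x)) :
    HasFDerivAt (fun y => W (t, y))
      ((fderiv ℝ W (t, x)).comp (ContinuousLinearMap.inr ℝ ℝ (E d))) x :=
  h.hasFDerivAt.comp x (hasFDerivAt_prodMk_right t x)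

theorem cse : CseStmt := by
  intro d U u hU hW
  set W : ℝ × E d → ℝ := fun z => u z.1 z.2 with hWdef
  have hD : ∀ z ∈ U, DifferentiableAt ℝ W z := fun z hz =>
    (hW.contDiffAt (hU.mem_nhds hz)).differentiableAt (by norm_num)
  have hW1 : ContDiffOn ℝ 1 (fderiv ℝ W) U := hW.fderiv_of_isOpen hU (by norm_num)
  have hD1 : ∀ z ∈ U, DifferentiableAt ℝ (fderiv ℝ W) z := fun z hz =>
    (hW1.contDiffAt (hU.mem_nhds hz)).differentiableAt (by norm_num)
  have hc1 : ContinuousOn (fderiv ℝ W) U := hW1.continuousOn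
  have hc2 : ContinuousOn (fderiv ℝ (fderiv ℝ W)) U :=
    hW1.continuousOn_fderiv_of_isOpen hU le_rfl
  -- the slices
  have hcx : ∀ t : ℝ, Continuous fun x : E d => ((t, x) : ℝ × E d) := fun t => by fun_prop
  have hct : ∀ x : E d, Continuous fun t : ℝ => ((t, x) : ℝ × E d) := fun x => by fun_prop
  have hVo : ∀ t : ℝ, IsOpen {x | (t, x) ∈ U} := fun t => hU.preimage (hcx t)
  have hTo : ∀ x : E d, IsOpen {t : ℝ | (t, x) ∈ U} := fun x => hU.preimage (hct x)
  -- time derivatives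
  set g : ℝ × E d → ℝ := fun z => fderiv ℝ W z (1, 0) with hg
  have hg1 : ContDiffOn ℝ 1 g U := hW1.clm_apply contDiffOn_const
  have hDg : ∀ z ∈ U, DifferentiableAt ℝ g z := fun z hz =>
    (hg1.contDiffAt (hU.mem_nhds hz)).differentiableAt (by norm_num)
  have hgc : ContinuousOn (fderiv ℝ g) U := hg1.continuousOn_fderiv_of_isOpen hU le_rfl
  have hdt : ∀ t x, (t, x) ∈ U → HasDerivAt (fun s => u s x) (g (t, x)) t := fun t x h =>
    cse_dt W t x (hD _ h)
  have hvt : ∀ t x, (t, x) ∈ U → vt u t x = g (t, x) := fun t x h => (hdt t x h).deriv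
  have hvt2 : ∀ t x, (t, x) ∈ U →
      (fun s => vt u s x) =ᶠ[𝓝 t] fun s => g (s, x) := by
    intro t x h
    filter_upwards [(hTo x).mem_nhds h] with s hs
    exact hvt s x hs
  have hdt2 : ∀ t x, (t, x) ∈ U →
      HasDerivAt (fun s => vt u s x) (fderiv ℝ g (t, x) (1, 0)) t := fun t x h =>
    (cse_dt g t x (hDg _ h)).congr_of_eventuallyEq (hvt2 t x h)
  have hwt : ∀ t x, (t, x) ∈ U → wt u t x = fderiv ℝ g (t, x) (1, 0) := by
    intro t x h
    have h1 : wt u t x = deriv (fun s => vt u s x) t := by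
      unfold wt vt
      rw [iteratedDeriv_succ, iteratedDeriv_one]
    rw [h1]
    exact (hdt2 t x h).deriv
  -- space derivatives
  have hdx : ∀ t x, (t, x) ∈ U → HasFDerivAt (u t)
      ((fderiv ℝ W (t, x)).comp (ContinuousLinearMap.inr ℝ ℝ (E d))) x := fun t x h =>
    cse_dx W t x (hD _ h)
  have hfx : ∀ t x, (t, x) ∈ U → fderiv ℝ (u t) x =
      (fderiv ℝ W (t, x)).comp (ContinuousLinearMap.inr ℝ ℝ (E d)) := fun t x h =>
    (hdx t x h).fderiv
  have hfx2 : ∀ t x, (t, x) ∈ U → (fun y => fderiv ℝ (u t) y) =ᶠ[𝓝 x] fun y =>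
      (fderiv ℝ W (t, y)).comp (ContinuousLinearMap.inr ℝ ℝ (E d)) := by
    intro t x h
    filter_upwards [(hVo t).mem_nhds h] with y hy
    exact hfx t y hy
  have hdx2 : ∀ t x, (t, x) ∈ U → ∀ v w : E d, fderiv ℝ (fun y => fderiv ℝ (u t) y) x v w =
      fderiv ℝ (fderiv ℝ W) (t, x) (0, v) (0, w) := by
    intro t x h v w
    rw [(hfx2 t x h).fderiv_eq]
    have h1 := cse_dx (fderiv ℝ W) t x (hD1 _ h)
    have h2 := h1.clm_comp (hasFDerivAt_const (ContinuousLinearMap.inr ℝ ℝ (E d)) x)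
    rw [h2.fderiv]
    simp
  refine ⟨fun t => ⟨hVo t, ?_, ?_⟩, ?_, ?_, ?_, ?_, ?_, ?_⟩
  · exact hW.comp (by fun_prop : ContDiff ℝ 2 fun x : E d => ((t, x) : ℝ × E d)).contDiffOn
      (fun x hx => hx)
  · have h1 : ContDiffOn ℝ 1 (fun x => g (t, x)) {x | (t, x) ∈ U} :=
      hg1.comp (by fun_prop : ContDiff ℝ 1 fun x : E d => ((t, x) : ℝ × E d)).contDiffOn
        (fun x hx => hx)
    exact h1.congr fun x hx => hvt t x hx
  · exact hg1.continuousOn.congr fun z hz => hvt z.1 z.2 hz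
  · have h1 : ContinuousOn (fun z => fderiv ℝ g z (1, 0)) U := hgc.clm_apply continuousOn_const
    exact h1.congr fun z hz => hwt z.1 z.2 hz
  · have h1 : ContinuousOn (fun z => (InnerProductSpace.toDual ℝ (E d)).symm
        ((fderiv ℝ W z).comp (ContinuousLinearMap.inr ℝ ℝ (E d)))) U :=
      (InnerProductSpace.toDual ℝ (E d)).symm.continuous.comp_continuousOn
        (hc1.clm_comp continuousOn_const)
    refine h1.congr fun z hz => ?_
    show (InnerProductSpace.toDual ℝ (E d)).symm (fderiv ℝ (u z.1) z.2) = _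
    rw [hfx z.1 z.2 hz]
  · have h1 : ContinuousOn (fun z => ∑ i : Fin d, fderiv ℝ (fderiv ℝ W) z
        (0, (EuclideanSpace.basisFun (Fin d) ℝ) i) (0, (EuclideanSpace.basisFun (Fin d) ℝ) i))
        U := by
      refine continuousOn_finsetSum _ fun i _ => ?_
      exact (hc2.clm_apply continuousOn_const).clm_apply continuousOn_const
    refine h1.congr fun z hz => ?_
    rw [laplacian_eq_iteratedFDeriv_orthonormalBasis (u z.1) (EuclideanSpace.basisFun (Fin d) ℝ)]
    refine Finset.sum_congr rfl fun i _ => ?_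
    rw [iteratedFDeriv_two_apply]
    exact hdx2 z.1 z.2 hz _ _
  · intro z hz
    refine ⟨?_, ?_⟩
    · rw [hvt z.1 z.2 hz]
      exact hdt z.1 z.2 hz
    · rw [hwt z.1 z.2 hz]
      exact hdt2 z.1 z.2 hz
  · intro x hx t ht hU'
    rw [hvt t x hU']
    have h1 : HasDerivWithinAt (fun s => u s x) (g (t, x)) (Ici t) t :=
      (hdt t x hU').hasDerivWithinAt
    have h2 : HasDerivWithinAt (fun s => u s x) 0 (Ici t) t :=
      (hasDerivWithinAt_const t (Ici t) (0 : ℝ)).congr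
        (fun s hs => hx s (le_trans ht hs)) (hx t ht)
    exact (uniqueDiffWithinAt_Ici t).eq_deriv _ h1 h2

end Pool.Agent.BEC.H75
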